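import Pool.Agent.H27.TD.YFin

set_option autoImplicit false

namespace Pool.Agent.Results.MP_8c28bb_co.AllTrees

/-- Let `r ≥ 2 ^ 26`, let `T` be any tree on `k ≥ 2` vertices and let `n` be any natural number.
Then the largest number of `r`-cliques in a `T`-free graph on `n` vertices is exactly
`⌊n/(k-1)⌋ C(k-1, r) + C(n mod (k-1), r)`. -/
theorem result (r : ℕ) (hr : 2 ^ 26 ≤ r) (k : ℕ) (hk : 2 ≤ k) (T : SimpleGraph (Fin k))
    (hT : T.IsTree) (n : ℕ) :
    (∀ G : SimpleGraph (Fin n), T.Free G →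
        {s : Finset (Fin n) | G.IsNClique r s}.ncard ≤
          (n / (k - 1)) * Nat.choose (k - 1) r + Nat.choose (n % (k - 1)) r) ∧
      (∃ G : SimpleGraph (Fin n), T.Free G ∧
        {s : Finset (Fin n) | G.IsNClique r s}.ncard =
          (n / (k - 1)) * Nat.choose (k - 1) r + Nat.choose (n % (k - 1)) r) :=
  Pool.Agent.H27.TD.all_final r hr k hk T hT n

end Pool.Agent.Results.MP_8c28bb_co.AllTrees
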