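import Pool.Agent.H28.TreeClique.HubFinal

set_option autoImplicit false

namespace Pool.Agent.Results.MP_8c28bb_co.HubTrees

/-- Let `T` be a tree on `k ≥ 2` vertices with a vertex `c` that is adjacent to exactly `lam` leaves
and to exactly `m` vertices which are not leaves. Suppose that `3k ≤ 5 lam + 9`, or
`k + max(2, m) ≤ 2 lam + 4`, or `r C(k - 2 - lam, r - 1) ≤ C(k - max(2, m), r - 1)`.
Then for every `n` the largest number of `r`-cliques (`r ≥ 3`) in a `T`-free graph on `n` vertices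
is exactly `⌊n/(k-1)⌋ C(k-1, r) + C(n mod (k-1), r)`. -/
theorem result (k : ℕ) (hk : 2 ≤ k) (T : SimpleGraph (Fin k)) (hT : T.IsTree) (r : ℕ)
    (hr : 3 ≤ r) (c : Fin k) (lam m : ℕ)
    (hlam : {x : Fin k | T.Adj c x ∧ ∃! y, T.Adj x y}.ncard = lam)
    (hm : {x : Fin k | T.Adj c x ∧ ¬ ∃! y, T.Adj x y}.ncard = m)
    (hyp : 3 * k ≤ 5 * lam + 9 ∨ k + max 2 m ≤ 2 * lam + 4 ∨
      r * Nat.choose (k - 2 - lam) (r - 1) ≤ Nat.choose (k - max 2 m) (r - 1)) (n : ℕ) :
    (∀ G : SimpleGraph (Fin n), T.Free G →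
        {s : Finset (Fin n) | G.IsNClique r s}.ncard ≤
          (n / (k - 1)) * Nat.choose (k - 1) r + Nat.choose (n % (k - 1)) r) ∧
      (∃ G : SimpleGraph (Fin n), T.Free G ∧
        {s : Finset (Fin n) | G.IsNClique r s}.ncard =
          (n / (k - 1)) * Nat.choose (k - 1) r + Nat.choose (n % (k - 1)) r) :=
  Pool.Agent.H28.TreeClique.hub_final k hk T hT r hr c lam m hlam hm hyp n

end Pool.Agent.Results.MP_8c28bb_co.HubTrees
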