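import Pool.Agent.H28.TreeClique.Final

set_option autoImplicit false

namespace Pool.Agent.Results.MP_8c28bb_co.LargeR

/-- Let `T` be a tree on `k ≥ 2` vertices and `r ≥ 3`. If `3k ≤ 4r + 1`, or if `2k + 1 ≤ 3r` and `T`
has at least `k - r` leaves (vertices with exactly one neighbour), then for every `n` the largest
number of `r`-cliques in a `T`-free graph on `n` vertices is exactly
`⌊n/(k-1)⌋ C(k-1, r) + C(n mod (k-1), r)`. -/
theorem result (k : ℕ) (hk : 2 ≤ k) (T : SimpleGraph (Fin k)) (hT : T.IsTree) (r : ℕ) (hr : 3 ≤ r)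
    (hcase : 3 * k ≤ 4 * r + 1 ∨
      (2 * k + 1 ≤ 3 * r ∧ k ≤ r + {x : Fin k | ∃! y, T.Adj x y}.ncard)) (n : ℕ) :
    (∀ G : SimpleGraph (Fin n), T.Free G →
        {s : Finset (Fin n) | G.IsNClique r s}.ncard ≤
          (n / (k - 1)) * Nat.choose (k - 1) r + Nat.choose (n % (k - 1)) r) ∧
      (∃ G : SimpleGraph (Fin n), T.Free G ∧
        {s : Finset (Fin n) | G.IsNClique r s}.ncard =
          (n / (k - 1)) * Nat.choose (k - 1) r + Nat.choose (n % (k - 1)) r) :=
  Pool.Agent.H28.TreeClique.final k hk T hT r hr hcase n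

end Pool.Agent.Results.MP_8c28bb_co.LargeR
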